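import Mathlib

namespace Pool.Agent.Results.MP_35dbbb_co.CSeven

/-- No path `v_1 ... v_{2t}` (`t ≥ 1`), written as `l₁ ++ l₂` with halves of equal length, has
the same colour sequence on its two halves. -/
def Nonrepetitive {V C : Type} (G : SimpleGraph V) (c : V → C) : Prop :=
  ∀ l₁ l₂ : List V, l₁ ≠ [] → l₁.length = l₂.length → (l₁ ++ l₂).Nodup →
    (l₁ ++ l₂).IsChain G.Adj → l₁.map c ≠ l₂.map c

/-- The Thue chromatic number. -/
noncomputable def thue {V : Type} (G : SimpleGraph V) : ℕ :=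
  sInf {k | ∃ c : V → Fin k, Nonrepetitive G c}

/-- The lexicographic product `G[H]`. -/
def lex {V W : Type} (G : SimpleGraph V) (H : SimpleGraph W) : SimpleGraph (V × W) where
  Adj p q := G.Adj p.1 q.1 ∨ (p.1 = q.1 ∧ H.Adj p.2 q.2)
  symm := ⟨fun _ _ h => h.elim (fun h => Or.inl h.symm) (fun h => Or.inr ⟨h.1.symm, h.2.symm⟩)⟩
  loopless := ⟨fun _ h => h.elim (fun h => G.irrefl h) (fun h => H.irrefl h.2)⟩

abbrev P := Fin 7 × Fin 2

def adj (p q : P) : Bool := (p.1.val + 1) % 7 == q.1.val || (q.1.val + 1) % 7 == p.1.val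

def col (p : P) : Fin 6 :=
  ([0, 1, 2, 2, 3, 4, 2, 2, 0, 5, 3, 4, 5, 5] : List (Fin 6)).getD (2 * p.1.val + p.2.val) 0

def allP : List P := (List.finRange 7).flatMap fun i => [(i, 0), (i, 1)]

lemma mem_allP : ∀ p : P, p ∈ allP := by decide

lemma adj_of : ∀ p q : P, (lex (SimpleGraph.cycleGraph 7) (⊥ : SimpleGraph (Fin 2))).Adj p q →
    adj p q = true := by
  intro p q h
  rcases h with h | h
  · revert p q
    decide
  · exact absurd h.2 (by simp)

def okHead (x : P) : List P → Bool
  | [] => true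
  | y :: _ => adj x y

def ext (s : List P × List P) : List (List P × List P) :=
  allP.flatMap fun x => (allP.filter fun y => col x == col y && x != y && okHead x s.1 &&
    okHead y s.2 && !(s.1.contains x) && !(s.2.contains x) && !(s.1.contains y) &&
      !(s.2.contains y)).map fun y => (x :: s.1, y :: s.2)

def S : ℕ → List (List P × List P)
  | 0 => [([], [])]
  | t + 1 => (S t).flatMap ext

lemma mem_S : ∀ l₁ l₂ : List P, l₁.length = l₂.length → (l₁ ++ l₂).Nodup →
    l₁.IsChain (fun p q => adj p q = true) → l₂.IsChain (fun p q => adj p q = true) →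
    l₁.map col = l₂.map col → (l₁, l₂) ∈ S l₁.length := by
  intro l₁
  induction l₁ with
  | nil =>
    intro l₂ h _ _ _ _
    cases l₂ with
    | nil => simp [S]
    | cons y ys => simp at h
  | cons x xs ih =>
    intro l₂ h hn c1 c2 hm
    cases l₂ with
    | nil => simp at h
    | cons y ys =>
      simp only [List.map_cons, List.cons.injEq] at hm
      have hn' : (xs ++ ys).Nodup :=
        hn.sublist ((List.sublist_cons_self x xs).append (List.sublist_cons_self y ys))
      have := ih ys (by simpa using h) hn' c1.tail c2.tail hm.2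
      rw [List.length_cons, S, List.mem_flatMap]
      refine ⟨_, this, ?_⟩
      unfold ext
      rw [List.mem_flatMap]
      refine ⟨x, mem_allP x, List.mem_map.mpr ⟨y, List.mem_filter.mpr ⟨mem_allP y, ?_⟩, rfl⟩⟩
      have o1 : okHead x xs = true := by
        cases xs with
        | nil => rfl
        | cons z zs => exact (List.isChain_cons_cons.mp c1).1
      have o2 : okHead y ys = true := by
        cases ys with
        | nil => rfl
        | cons z zs => exact (List.isChain_cons_cons.mp c2).1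
      simp only [List.cons_append, List.nodup_cons, List.mem_append, List.mem_cons,
        List.nodup_append] at hn
      simp only [hm.1, o1, o2, beq_self_eq_true, Bool.true_and, Bool.and_true, Bool.and_eq_true,
        bne_iff_ne, Bool.not_eq_eq_eq_not, Bool.not_true, List.contains_eq_mem, decide_eq_false_iff_not]
      refine ⟨⟨⟨⟨?_, ?_⟩, ?_⟩, ?_⟩, ?_⟩
      · tauto
      · tauto
      · tauto
      · intro hy
        exact hn.2.2.2 y hy y (Or.inl rfl) rfl
      · tauto

lemma check : ∀ t < 8, ∀ s ∈ S (t + 1),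
    ¬ (s.1 ++ s.2).IsChain (fun p q => adj p q = true) := by decide +kernel

lemma good : Nonrepetitive (lex (SimpleGraph.cycleGraph 7) (⊥ : SimpleGraph (Fin 2))) col := by
  intro l₁ l₂ h0 hl hn hc hm
  have hc' : (l₁ ++ l₂).IsChain (fun p q => adj p q = true) := hc.imp adj_of
  have h1 := mem_S l₁ l₂ hl hn hc'.left_of_append hc'.right_of_append hm
  have h2 := hn.length_le_card
  have h3 : l₁.length ≠ 0 := by simpa using h0
  simp only [List.length_append, Fintype.card_prod, Fintype.card_fin] at h2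
  obtain ⟨t, ht⟩ : ∃ t, l₁.length = t + 1 := ⟨l₁.length - 1, by omega⟩
  rw [ht] at h1
  exact check t (by omega) _ h1 hc'

lemma id_ok {k : ℕ} (G : SimpleGraph (Fin k)) : Nonrepetitive G id := by
  intro l₁ l₂ h0 _ hn _ hm
  simp only [List.map_id] at hm
  subst hm
  cases l₁ with
  | nil => exact h0 rfl
  | cons x xs => simp [List.nodup_append] at hn

lemma three : ∀ a : Fin 7 → Fin 3, ∃ i : Fin 7, a i = a (i + 1) ∨
    (a i = a (i + 2) ∧ a (i + 1) = a (i + 3)) ∨
    (a i = a (i + 3) ∧ a (i + 1) = a (i + 4) ∧ a (i + 2) = a (i + 5)) := by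
  have key : ∀ a0 a1 a2 a3 a4 a5 a6 : Fin 3, ∃ i : Fin 7,
      ![a0, a1, a2, a3, a4, a5, a6] i = ![a0, a1, a2, a3, a4, a5, a6] (i + 1) ∨
      (![a0, a1, a2, a3, a4, a5, a6] i = ![a0, a1, a2, a3, a4, a5, a6] (i + 2) ∧
        ![a0, a1, a2, a3, a4, a5, a6] (i + 1) = ![a0, a1, a2, a3, a4, a5, a6] (i + 3)) ∨
      (![a0, a1, a2, a3, a4, a5, a6] i = ![a0, a1, a2, a3, a4, a5, a6] (i + 3) ∧
        ![a0, a1, a2, a3, a4, a5, a6] (i + 1) = ![a0, a1, a2, a3, a4, a5, a6] (i + 4) ∧
        ![a0, a1, a2, a3, a4, a5, a6] (i + 2) = ![a0, a1, a2, a3, a4, a5, a6] (i + 5)) := by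
    decide +kernel
  intro a
  have e : a = ![a 0, a 1, a 2, a 3, a 4, a 5, a 6] := by
    funext i
    fin_cases i <;> rfl
  rw [e]
  exact key _ _ _ _ _ _ _

lemma cyc : 4 ≤ thue (SimpleGraph.cycleGraph 7) := by
  refine le_csInf ⟨7, id, id_ok _⟩ ?_
  rintro k ⟨c, hc⟩
  by_contra hk
  have hk3 : k ≤ 3 := by omega
  obtain ⟨i, h | h | h⟩ := three (fun i => Fin.castLE hk3 (c i))
  · refine hc [i] [i + 1] (by simp) rfl (by clear h; revert i; decide)
      (by clear h; revert i; decide) ?_
    simpa using h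
  · refine hc [i, i + 1] [i + 2, i + 3] (by simp) rfl (by clear h; revert i; decide)
      (by clear h; revert i; decide) ?_
    simpa using h
  · refine hc [i, i + 1, i + 2] [i + 3, i + 4, i + 5] (by simp) rfl (by clear h; revert i; decide)
      (by clear h; revert i; decide) ?_
    simpa using h

theorem result : ∃ (n m : ℕ) (G : SimpleGraph (Fin n)) (H : SimpleGraph (Fin m)),
    (thue (lex G H) : ℤ) < thue H + ((thue G : ℤ) - 1) * Fintype.card (Fin m) := by
  refine ⟨7, 2, SimpleGraph.cycleGraph 7, ⊥, ?_⟩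
  have h1 : thue (lex (SimpleGraph.cycleGraph 7) (⊥ : SimpleGraph (Fin 2))) ≤ 6 :=
    Nat.sInf_le ⟨col, good⟩
  have h2 := cyc
  have h3 : 1 ≤ thue (⊥ : SimpleGraph (Fin 2)) := by
    refine le_csInf ⟨2, id, id_ok _⟩ ?_
    rintro k ⟨c, -⟩
    exact (c 0).pos
  rw [Fintype.card_fin]
  omega

end Pool.Agent.Results.MP_35dbbb_co.CSeven
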